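import Pool.Agent.Helper92.Ru.OwnE

set_option autoImplicit false

open NumberField
open Pool.Agent.Helper92.Ru.Own

namespace Pool.Agent.Results.MP_d1d051_nt.WirsingHyperplanes

/-- **Ru's question: the Wirsing-type inequality for hyperplanes without exceptional set holds.**
Let `k` be a number field, `S` a finite set of places of `k`, `n ≥ 1`, and let `H_1, ..., H_q` be
hyperplanes of `ℙ^n` over `k` in general position (any `n + 1` of them have empty intersection); `H_i`
is given by the linear form `ℓ_i` with the coefficients `b i`, and `D = H_1 + ... + H_q`. For every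
`δ ≥ 1` and `ε > 0` there is a constant `C` with

`m_{D,S}(P) < (2 δ n + ε) h(P) + C`

for all points `P = [x_0 : ... : x_n]` outside `Supp D`, with coordinates `x_j` in any number field
`L` containing `k`, whose field of definition `k(P)` (`fieldOfDef`) satisfies `[k(P) : k] ≤ δ`. These
are all the points `P` of `ℙ^n` over the algebraic closure of `k` with `[k(P) : k] ≤ δ`, in all
homogeneous coordinates. `m_{D,S}(P)` is `prox S b x` and `h(P)` is `height x`, with the normalised
absolute values `nrm` of `L`; only finitely many terms of the sums which define them are not zero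
(`Own.ht_supp`, `Own.above_set_finite`), and they do not depend on `L` and on the coordinates
(`Own.prox_ext`, `Own.height_ext`). -/
theorem result (k : Type) [Field k] [NumberField k] (S : Finset (Place k)) (n q : ℕ) (hn : 1 ≤ n)
    (b : Fin q → Fin (n + 1) → k) (hb : ∀ i, b i ≠ 0) (hGP : GeneralPosition b)
    (δ : ℕ) (hδ : 1 ≤ δ) (ε : ℝ) (hε : 0 < ε) :
    ∃ C : ℝ, ∀ (L : Type) [Field L] [NumberField L] [Algebra k L] (x : Fin (n + 1) → L),
      x ≠ 0 → (∀ i, form (b i) x ≠ 0) → Module.finrank k (fieldOfDef k x) ≤ δ →
      prox S b x < (2 * (δ : ℝ) * (n : ℝ) + ε) * height x + C :=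
  main S hn b hb hGP δ hδ ε hε

end Pool.Agent.Results.MP_d1d051_nt.WirsingHyperplanes
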